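import Pool.Agent.W_4481e3_q46.MainTwo

/-!
The upper half of the parameter region is covered by a finite list of squares (scale `2 ^ 24`).

A square is `(X, Y, H)`: centre `X + Y i`, half side `H`, all divided by `2 ^ 24`.  The check is a
quadtree search of depth `n`: a square of the quadtree is fine if it is contained in a square of the
list or if it lies outside of the region.
-/

namespace Pool.Agent.W_4481e3_q46

open Pool.Agent.W_MP_4481e3_an

/-- `e` lies in the square -/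
def InSq (X Y H : ℕ) (e : ℂ) : Prop :=
  |2 ^ 24 * e.re - (X : ℝ)| ≤ (H : ℝ) ∧ |2 ^ 24 * e.im - (Y : ℝ)| ≤ (H : ℝ)

/-- the square `(X, Y, H)` is contained in the square `(X', Y', H')` -/
def sub (X Y H X' Y' H' : ℕ) : Bool :=
  (X + H ≤ X' + H') && (X' + H ≤ X + H') && (Y + H ≤ Y' + H') && (Y' + H ≤ Y + H')

/-- contained in a square of the list -/
def subL (X Y H : ℕ) (L : List (ℕ × ℕ × ℕ)) : Bool :=
  L.any fun s => sub X Y H s.1 s.2.1 s.2.2

/-- the square is outside of the region `3 |e| ^ 2 < 2 Re e + |e| ^ 4`, `|e| < 1 / 4` -/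
def outq (x q : ℕ) : Bool := (17592186044416 ≤ q) || (536870912 * x ≤ 47 * q)

/-- the square is outside of the region, or below the real axis, or left of the imaginary one -/
def outs (X Y H : ℕ) : Bool := outq (X + H) ((X - H) * (X - H) + (Y - H) * (Y - H))

/-- the check -/
def cov (L : List (ℕ × ℕ × ℕ)) : ℕ → ℕ → ℕ → ℕ → Bool
  | 0, X, Y, H => outs X Y H || subL X Y H L
  | n + 1, X, Y, H => outs X Y H || subL X Y H L ||
      (let h := (H + 1) / 2
       cov L n (X - h) (Y - h) h && cov L n (X + h) (Y - h) h &&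
       cov L n (X - h) (Y + h) h && cov L n (X + h) (Y + h) h)

/-- the quarter of the region -/
def Reg4 (e : ℂ) : Prop := RegE e ∧ 0 ≤ e.im

lemma insq_of_sub {X Y H X' Y' H' : ℕ} (h : sub X Y H X' Y' H' = true) {e : ℂ} (he : InSq X Y H e) :
    InSq X' Y' H' e := by
  unfold sub at h
  simp only [Bool.and_eq_true, decide_eq_true_eq] at h
  obtain ⟨⟨⟨h1, h2⟩, h3⟩, h4⟩ := h
  have h1' : (X : ℝ) + H ≤ X' + H' := by exact_mod_cast h1
  have h2' : (X' : ℝ) + H ≤ X + H' := by exact_mod_cast h2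
  have h3' : (Y : ℝ) + H ≤ Y' + H' := by exact_mod_cast h3
  have h4' : (Y' : ℝ) + H ≤ Y + H' := by exact_mod_cast h4
  obtain ⟨a, b⟩ := he
  rw [abs_le] at a b
  constructor <;> rw [abs_le] <;> constructor <;> linarith [a.1, a.2, b.1, b.2]

lemma insq_of_subL {X Y H : ℕ} {L : List (ℕ × ℕ × ℕ)} (h : subL X Y H L = true) {e : ℂ}
    (he : InSq X Y H e) : ∃ s ∈ L, InSq s.1 s.2.1 s.2.2 e := by
  unfold subL at h
  rw [List.any_eq_true] at h
  obtain ⟨s, hs, h⟩ := h
  exact ⟨s, hs, insq_of_sub h he⟩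

lemma not_outs {X Y H : ℕ} (h : outs X Y H = true) {e : ℂ} (he : InSq X Y H e) (hr : Reg4 e) :
    False := by
  obtain ⟨⟨h1, h2, h3⟩, h4⟩ := hr
  obtain ⟨a, b⟩ := he
  rw [abs_le] at a b
  unfold outs outq at h
  simp only [Bool.or_eq_true, decide_eq_true_eq] at h
  set u : ℕ := X - H with hu
  set v : ℕ := Y - H with hv
  -- `u ≤ 2^24 Re e`, `v ≤ 2^24 Im e`
  have hu' : (u : ℝ) ≤ 2 ^ 24 * e.re := by
    rcases le_total H X with hX | hX
    · rw [hu, Nat.cast_sub hX]; linarith [a.1]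
    · rw [hu, Nat.sub_eq_zero_of_le hX]; push_cast; positivity
  have hv' : (v : ℝ) ≤ 2 ^ 24 * e.im := by
    rcases le_total H Y with hY | hY
    · rw [hv, Nat.cast_sub hY]; linarith [b.1]
    · rw [hv, Nat.sub_eq_zero_of_le hY]; push_cast; positivity
  have hx' : 2 ^ 24 * e.re ≤ (X : ℝ) + H := by linarith [a.2]
  have hn : ‖e‖ ^ 2 = e.re ^ 2 + e.im ^ 2 := by
    rw [← Complex.normSq_eq_norm_sq, Complex.normSq_apply]; ring
  have hq : ((u * u + v * v : ℕ) : ℝ) ≤ (2 ^ 24) ^ 2 * ‖e‖ ^ 2 := by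
    push_cast
    rw [hn]
    have e1 : (u : ℝ) * u ≤ (2 ^ 24 * e.re) * (2 ^ 24 * e.re) :=
      mul_self_le_mul_self (Nat.cast_nonneg _) hu'
    have e2 : (v : ℝ) * v ≤ (2 ^ 24 * e.im) * (2 ^ 24 * e.im) :=
      mul_self_le_mul_self (Nat.cast_nonneg _) hv'
    nlinarith
  have hr2 : ‖e‖ ^ 2 < 1 / 16 := by nlinarith [norm_nonneg e]
  rcases h with h | h
  · have h' : ((17592186044416 : ℕ) : ℝ) ≤ ((u * u + v * v : ℕ) : ℝ) := by exact_mod_cast h
    norm_num at h' hq
    nlinarith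
  · have h' : ((536870912 * (X + H) : ℕ) : ℝ) ≤ ((47 * (u * u + v * v) : ℕ) : ℝ) := by
      exact_mod_cast h
    have e1 : ((536870912 * (X + H) : ℕ) : ℝ) = 536870912 * ((X : ℝ) + H) := by push_cast; ring
    have e2 : ((47 * (u * u + v * v) : ℕ) : ℝ) = 47 * ((u * u + v * v : ℕ) : ℝ) := by push_cast; ring
    rw [e1, e2] at h'
    have e3 : ‖e‖ ^ 4 ≤ 1 / 16 * ‖e‖ ^ 2 := by nlinarith [sq_nonneg (‖e‖ ^ 2)]
    nlinarith

theorem cov_sound {L : List (ℕ × ℕ × ℕ)} : ∀ (n X Y H : ℕ), cov L n X Y H = true →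
    ∀ e : ℂ, Reg4 e → InSq X Y H e → ∃ s ∈ L, InSq s.1 s.2.1 s.2.2 e := by
  intro n
  induction n with
  | zero =>
      intro X Y H h e hr he
      unfold cov at h
      rw [Bool.or_eq_true] at h
      rcases h with h | h
      · exact (not_outs h he hr).elim
      · exact insq_of_subL h he
  | succ n ih =>
      intro X Y H h e hr he
      unfold cov at h
      simp only [Bool.or_eq_true, Bool.and_eq_true] at h
      rcases h with (h | h) | h
      · exact (not_outs h he hr).elim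
      · exact insq_of_subL h he
      · set k := (H + 1) / 2 with hk
        have hk2 : H ≤ 2 * k := by omega
        have hk2' : (H : ℝ) ≤ 2 * k := by exact_mod_cast hk2
        obtain ⟨⟨⟨h1, h2⟩, h3⟩, h4⟩ := h
        obtain ⟨⟨-, -, hre⟩, him⟩ := id hr
        obtain ⟨a, b⟩ := he
        rw [abs_le] at a b
        -- left or right
        have hxl : 2 ^ 24 * e.re ≤ (X : ℝ) → |2 ^ 24 * e.re - ((X - k : ℕ) : ℝ)| ≤ (k : ℝ) := by
          intro hx
          rcases le_total k X with hX | hX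
          · rw [Nat.cast_sub hX, abs_le]; constructor <;> linarith [a.1]
          · rw [Nat.sub_eq_zero_of_le hX, abs_le]
            have : (X : ℝ) ≤ k := by exact_mod_cast hX
            push_cast
            constructor <;> linarith [a.1]
        have hyl : 2 ^ 24 * e.im ≤ (Y : ℝ) → |2 ^ 24 * e.im - ((Y - k : ℕ) : ℝ)| ≤ (k : ℝ) := by
          intro hy
          rcases le_total k Y with hY | hY
          · rw [Nat.cast_sub hY, abs_le]; constructor <;> linarith [b.1]
          · rw [Nat.sub_eq_zero_of_le hY, abs_le]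
            have : (Y : ℝ) ≤ k := by exact_mod_cast hY
            push_cast
            constructor <;> linarith [b.1]
        have hxr : (X : ℝ) ≤ 2 ^ 24 * e.re → |2 ^ 24 * e.re - ((X + k : ℕ) : ℝ)| ≤ (k : ℝ) := by
          intro hx
          rw [Nat.cast_add, abs_le]; constructor <;> linarith [a.2]
        have hyr : (Y : ℝ) ≤ 2 ^ 24 * e.im → |2 ^ 24 * e.im - ((Y + k : ℕ) : ℝ)| ≤ (k : ℝ) := by
          intro hy
          rw [Nat.cast_add, abs_le]; constructor <;> linarith [b.2]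
        rcases le_total (2 ^ 24 * e.re) (X : ℝ) with hx | hx <;>
          rcases le_total (2 ^ 24 * e.im) (Y : ℝ) with hy | hy
        · exact ih _ _ _ h1 e hr ⟨hxl hx, hyl hy⟩
        · exact ih _ _ _ h3 e hr ⟨hxl hx, hyr hy⟩
        · exact ih _ _ _ h2 e hr ⟨hxr hx, hyl hy⟩
        · exact ih _ _ _ h4 e hr ⟨hxr hx, hyr hy⟩

/-- **Cover theorem**: the root square contains `[0, 1 / 4] × [0, 1 / 4]`. -/
theorem cover {L : List (ℕ × ℕ × ℕ)} {n X Y H : ℕ} (hX : X ≤ H) (hY : Y ≤ H)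
    (hX' : 4194304 ≤ X + H) (hY' : 4194304 ≤ Y + H) (h : cov L n X Y H = true) {e : ℂ}
    (hr : RegE e) (him : 0 ≤ e.im) : ∃ s ∈ L, InSq s.1 s.2.1 s.2.2 e := by
  refine cov_sound n X Y H h e ⟨hr, him⟩ ⟨?_, ?_⟩
  · have h1 : e.re ≤ 1 / 4 := le_trans (Complex.re_le_norm e) hr.2.1.le
    have h2 := hr.2.2
    have a1 : (X : ℝ) ≤ H := by exact_mod_cast hX
    have a2 : (4194304 : ℝ) ≤ X + H := by exact_mod_cast hX'
    have h3 := hr.2.2
    rw [abs_le]; constructor <;> linarith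
  · have h1 : e.im ≤ 1 / 4 := le_trans (Complex.im_le_norm e) hr.2.1.le
    have a1 : (Y : ℝ) ≤ H := by exact_mod_cast hY
    have a2 : (4194304 : ℝ) ≤ Y + H := by exact_mod_cast hY'
    rw [abs_le]; constructor <;> linarith

end Pool.Agent.W_4481e3_q46
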