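import Pool.Agent.W_4481e3_q46.Table
import Pool.Agent.W_4481e3_q46.Cover
import Pool.Agent.W_4481e3_q59.ConsumerPQ
import Pool.Agent.W_4481e3_h6.Sit

/-!
Final assembly for `L = 2`: from the certificates on the squares of a list to `NoFam2`.
-/

open Filter Topology Set

namespace Pool.Agent.W_4481e3_q46

open Pool.Agent.W_MP_4481e3_an Pool.Agent.W_4481e3_q42 Pool.Agent.W_4481e3_q59
open Pool.Agent.W_MP_4481e3_an.Boot (slope)
open Pool.Agent.W_4481e3_h1 (b15)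

/-- the factor between the limit superior of the slopes and the slope at the time `0` -/
noncomputable def Lam : ℝ := 101 / 100

/-- **Kill certificate of a row** at the parameter `ε`: time `0` at the phase `1` (base `2 / 15`),
slope at the time `0` in `[lo, hi]`, constants of the row `r`. -/
def RowKill (ε : ℂ) (m N : ℕ) (r : Row) (lo hi : ℝ) : Prop :=
  ∀ A, lo ≤ A → A ≤ hi → ∃ n ≤ N,
    KillAtQ ε m (fun p _ => r.beta (p % 4)) (fun p _ => r.kap (p % 4)) (fun p _ => r.tau (p % 4)) 1 A 1 n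

/-- the certificate of a row from helper6's situation: `n` past steps, `m` future steps -/
lemma rowKill_of_sit {ε : ℂ} {n m N : ℕ} {r : Row} {lo hi : ℝ} (hn : n ≤ N)
    (H : ∀ u b uf bf, Pool.Agent.W_4481e3_h6.Sit ε n m (fun p _ => r.beta (p % 4))
      (fun p _ => r.kap (p % 4)) (fun p _ => r.tau (p % 4)) u b uf bf →
        lo ≤ ‖b 0‖ → ‖b 0‖ ≤ hi → False) : RowKill ε (n + m) N r lo hi := fun A h1 h2 =>
  ⟨n, hn, Pool.Agent.W_4481e3_h6.kill_of_sit (fun p _ => by rw [Nat.add_mod_right])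
    (fun p _ => by rw [Nat.add_mod_right]) (fun p _ => by rw [Nat.add_mod_right]) H h1 h2⟩

/-- **Period certificate of a row** at the parameter `ε` (slopes at the phase `1` up to
`Lam * hi`). -/
def RowPer (ε : ℂ) (r : Row) (_lo hi : ℝ) : Prop :=
  ∃ θ h, 0 ≤ θ ∧ θ < 1 ∧ r.tau 1 = 16 * h ∧
    (∀ j, 1 ≤ j → j < 4 → r.tau ((1 + j) % 4) ≤ 2 ^ j * h) ∧
    PerQ ε 1 (Lam * hi) h θ (fun j => r.kap ((1 + j) % 4)) (fun j => r.beta ((1 + j) % 4))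

lemma perQ_anti {ε : ℂ} {q : ℕ} {A B h θ : ℝ} {κ β : ℕ → ℝ} (H : PerQ ε q B h θ κ β) (hAB : A ≤ B) :
    PerQ ε q A h θ κ β := fun w a hw h1 h2 => H w a hw (h1.trans hAB) (h2.trans hAB)

/-- the parameters of the frame -/
def Par (ε : ℂ) : Prop := 0 < ε.re ∧ 0 ≤ ε.im ∧ ε.im < ε.re ∧ ‖ε‖ < 1 / 2 ∧ RegE (ε ^ 2)

lemma Par.adm {ε : ℂ} (h : Par ε) : Adm ε := ⟨h.1, h.2.1, h.2.2.1.le, h.2.2.2.1⟩

lemma Par.im_sq {ε : ℂ} (h : Par ε) : 0 ≤ (ε ^ 2).im := by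
  have h1 : (ε ^ 2).im = 2 * ε.re * ε.im := by rw [pow_two, Complex.mul_im]; ring
  rw [h1]
  exact mul_nonneg (by linarith [h.1]) h.2.1

/-- upper bound of the slopes at the phase `1` -/
def HiStmt (Ahi : ℝ) : Prop := ∀ ε : ℂ, Par ε → ∀ (ρ A K : ℝ) (V : ℕ → ℝ → ℂ) (a0 : ℂ),
  Fam2 ε ρ A K V → (∃ B, ∀ t : ℝ, |t| ≤ ρ → ‖V 0 t - V 0 0 - a0 * t‖ ≤ B * t ^ 2) →
    ∀ᶠ i in atTop, ‖slope (ε ^ 2) b15 V a0 (1 + 4 * i)‖ ≤ Ahi

/-- the flat regime is impossible -/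
def LoStmt (Alo : ℝ) : Prop := ∀ ε : ℂ, Par ε → ∀ (ρ A K : ℝ) (V : ℕ → ℝ → ℂ) (a0 : ℂ),
  Fam2 ε ρ A K V → (∃ B, ∀ t : ℝ, |t| ≤ ρ → ‖V 0 t - V 0 0 - a0 * t‖ ≤ B * t ^ 2) →
    ∃ᶠ i in atTop, Lam * Alo ≤ ‖slope (ε ^ 2) b15 V a0 (1 + 4 * i)‖

/-- **Final assembly**, for the table `d :: rs` (rows with increasing left ends) and the top slope
`top ≥ Lam * Ahi`. -/
theorem noFam2_of_rows {Ahi top : ℝ} {m N : ℕ} {d : Row} {rs : List Row} (hlo0 : 0 < d.lo)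
    (hmono : Mono d rs) (hpos : EachRow (fun r => 0 < r.kap 1 ∧ 0 < r.tau 1) d rs)
    (htop : Lam * Ahi ≤ top) (hAhi : 0 ≤ Ahi) (hhi : HiStmt Ahi) (hlo : LoStmt d.lo)
    (hper : ∀ ε : ℂ, Par ε → AllRows (RowPer ε) top d rs)
    (hkill : ∀ ε : ℂ, Par ε → AllRows (RowKill ε m N) top d rs) : NoFam2 := by
  intro ε h1 h2 h3 h4 h5 ρ A K V hF
  have hP : Par ε := ⟨h1, h2, h3, h4, h5⟩
  obtain ⟨a0, hc⟩ := hF.c11
  have hΛ : (1 : ℝ) < Lam := by unfold Lam; norm_num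
  have hAtop : Ahi ≤ top := le_trans (by nlinarith) htop
  refine no_fam2_perQ (q := 1) (m := m) (Nmax := N) (Λ := Lam) (Alo := d.lo) (Ahi := Ahi)
    (κ := kapT d rs) (τ := tauT d rs) (β := betaT d rs) hP.adm hF (by norm_num) hΛ hlo0 hc
    (hhi ε hP ρ A K V a0 hF hc) (hlo ε hP ρ A K V a0 hF hc) (kapT_four d rs) (tauT_four d rs)
    (betaT_four d rs) (fun p A B _ hAB => kapT_mono hmono p hAB)
    (fun p A B _ hAB => tauT_anti hmono p hAB) (fun p A B _ hAB => betaT_mono hmono p hAB)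
    (fun A _ => (pick_mem hpos A).1) (fun A _ => (pick_mem hpos A).2) ?_ ?_
  · intro A hA1 hA2
    obtain ⟨lo, hi, hl, hh, θ, h, hθ0, hθ1, ht, htj, hq⟩ :=
      pick_all (hper ε hP) hA1 (hA2.trans hAtop)
    refine ⟨θ, h, hθ0, hθ1, ht, fun j hj1 hj4 => ?_, ?_⟩
    · exact htj j hj1 hj4
    · exact perQ_anti hq (by nlinarith)
  · intro A hA1 hA2
    obtain ⟨lo, hi, hl, hh, hk⟩ := pick_all (hkill ε hP) hA1 (hA2.trans htop)
    obtain ⟨n, hn, hk⟩ := hk A hl hh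
    exact ⟨n, hn, hk⟩

/-- the certificate on a square of the parameter plane -/
def SqKill (m N : ℕ) (top : ℝ) (d : Row) (rs : List Row) (X Y H : ℕ) : Prop :=
  ∀ ε : ℂ, Par ε → InSq X Y H (ε ^ 2) → AllRows (RowKill ε m N) top d rs

/-- **Final assembly**, with the list of the squares. -/
theorem noFam2_of_squares {Ahi top : ℝ} {m N : ℕ} {d : Row} {rs : List Row} (hlo0 : 0 < d.lo)
    (hmono : Mono d rs) (hpos : EachRow (fun r => 0 < r.kap 1 ∧ 0 < r.tau 1) d rs)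
    (htop : Lam * Ahi ≤ top) (hAhi : 0 ≤ Ahi) (hhi : HiStmt Ahi) (hlo : LoStmt d.lo)
    (hper : ∀ ε : ℂ, Par ε → AllRows (RowPer ε) top d rs)
    {L : List (ℕ × ℕ × ℕ)} {n X Y H : ℕ} (hX : X ≤ H) (hY : Y ≤ H)
    (hX' : 4194304 ≤ X + H) (hY' : 4194304 ≤ Y + H) (hcov : cov L n X Y H = true)
    (hsq : ∀ s ∈ L, SqKill m N top d rs s.1 s.2.1 s.2.2) : NoFam2 := by
  refine noFam2_of_rows (m := m) (N := N) hlo0 hmono hpos htop hAhi hhi hlo hper fun ε hP => ?_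
  obtain ⟨s, hs, hin⟩ := cover hX hY hX' hY' hcov hP.2.2.2.2 hP.im_sq
  exact hsq s hs ε hP hin

end Pool.Agent.W_4481e3_q46
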