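import Pool.Agent.W_MP_4481e3_low.MainLow
import Pool.Agent.W_4481e3_q59.TameOfGain
import Pool.Agent.W_4481e3_q87.FamB
import Pool.Agent.W_4481e3_h6.AdmRegion

/-!
The conjecture for `L = 2`: final frame.
-/

open MeasureTheory Filter Topology Set
open scoped ComplexConjugate

namespace Pool.Agent.W_MP_4481e3_an

variable {α : ℂ} {L : ℕ}

/-- the admissible region for `e = (α / 2) ^ 2` -/
def RegE (e : ℂ) : Prop := 3 * ‖e‖ ^ 2 < 2 * e.re + ‖e‖ ^ 4 ∧ ‖e‖ < 1 / 4 ∧ 0 < e.re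

lemma RegE.conj {e : ℂ} (h : RegE e) : RegE (conj e) := by
  obtain ⟨h1, h2, h3⟩ := h
  refine ⟨?_, ?_, ?_⟩
  · rw [Complex.norm_conj, Complex.conj_re]; exact h1
  · rw [Complex.norm_conj]; exact h2
  · rw [Complex.conj_re]; exact h3

variable {ε : ℂ} {ρ A K : ℝ} {V : ℕ → ℝ → ℂ}

theorem Fam2.neg (h : Fam2 ε ρ A K V) : Fam2 (-ε) ρ A K V := by
  refine ⟨h.pos, h.lip, h.c11, ?_, h.growth, ?_⟩
  · intro k t ht
    rw [h.recur k t ht, neg_sq]
  · intro ℓ hℓ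
    obtain ⟨R, hR, hn⟩ := h.near ℓ hℓ
    refine ⟨R, hR, fun k a h1 h2 => ?_⟩
    obtain ⟨⟨t, ht, h3⟩, ⟨t', ht', h4⟩⟩ := hn k a h1 h2
    refine ⟨⟨t', ht', ?_⟩, ⟨t, ht, ?_⟩⟩
    · rw [sub_neg_eq_add]; exact h4
    · rw [← sub_eq_add_neg]; exact h3

theorem Fam2.conj (h : Fam2 ε ρ A K V) : Fam2 (conj ε) ρ A K (fun k t => conj (V k t)) := by
  refine ⟨h.pos, ?_, ?_, ?_, ?_, ?_⟩
  · intro s t hs ht
    rw [← map_sub, Complex.norm_conj]
    exact h.lip s t hs ht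
  · obtain ⟨a, B, hB⟩ := h.c11
    refine ⟨conj a, B, fun t ht => ?_⟩
    have : conj (V 0 t) - conj (V 0 0) - conj a * (t : ℂ) = conj (V 0 t - V 0 0 - a * t) := by
      simp
    rw [this, Complex.norm_conj]
    exact hB t ht
  · intro k t ht
    show conj (V (k + 1) (2 * t)) = _
    rw [h.recur k t ht]
    simp only [map_add, map_mul, map_sub, map_pow, Complex.conj_ofReal]
  · intro k t ht
    show ‖conj (V k t)‖ ≤ _
    rw [Complex.norm_conj]
    exact h.growth k t ht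
  · intro ℓ hℓ
    obtain ⟨R, hR, hn⟩ := h.near ℓ hℓ
    refine ⟨R, hR, fun k a h1 h2 => ?_⟩
    obtain ⟨⟨t, ht, h3⟩, ⟨t', ht', h4⟩⟩ := hn k a h1 h2
    refine ⟨⟨t, ht, ?_⟩, ⟨t', ht', ?_⟩⟩
    · rw [← map_sub, Complex.norm_conj]; exact h3
    · rw [← map_add, Complex.norm_conj]; exact h4

/-- there is no family over the orbit of `1/15` -/
def NoFam2 : Prop := ∀ ε : ℂ, 0 < ε.re → 0 ≤ ε.im → ε.im < ε.re → ‖ε‖ < 1 / 2 → RegE (ε ^ 2) →
  ∀ (ρ A K : ℝ) (V : ℕ → ℝ → ℂ), ¬ Fam2 ε ρ A K V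

lemma O_neg (n : ℕ) (u z : ℂ) : O (-α) L n u (1 - z) = 1 - O α L n u z := by
  induction n with
  | zero => rfl
  | succ n ih =>
    rw [O_succ, O_succ, ih]
    ring

lemma Fall_neg (u : ℝ) (z : ℂ) : u ∈ Fall (-α) L (1 - z) ↔ u ∈ Fall α L z := by
  have key : ∀ (α : ℂ) (z : ℂ), u ∈ Fall α L z → u ∈ Fall (-α) L (1 - z) := by
    intro α z h
    have e : (fun n => O (-α) L n u (1 - z)) = fun n => 1 - O α L n u z := by
      funext n; exact O_neg n _ _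
    rcases h with h | h | h
    · right; left
      rw [e]
      simpa using h.const_sub 1
    · left
      rw [e]
      simpa using h.const_sub 1
    · right; right
      have e2 : (fun n => ‖O (-α) L n u (1 - z)‖) = fun n => ‖1 - O α L n u z‖ := by
        funext n; rw [O_neg]
      rw [e2]
      apply tendsto_atTop_mono (f := fun n => ‖O α L n u z‖ - 1)
      · intro n
        have h1 := norm_sub_norm_le (O α L n u z) 1
        rw [norm_sub_rev, norm_one] at h1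
        exact h1
      · exact tendsto_atTop_add_const_right _ _ h
  constructor
  · intro h
    have := key _ _ h
    rwa [neg_neg, sub_sub_cancel] at this
  · exact key α z

lemma regE_of_int (hα0 : α ≠ 0) (hα : ‖α‖ < 1) (h0 : ∫ x in (0:ℝ)..1, logf α x < 0) :
    RegE ((α / 2) ^ 2) :=
  adm_region hα0 hα h0

/-- **Star for `L = 2`**, positive real part. -/
theorem star_ae_two_pos (hα0 : α ≠ 0) (hα : ‖α‖ < 1) (hre : 0 < α.re) (hgain : GainStmt α)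
    (hreg : RegE ((α / 2) ^ 2)) (hno : NoFam2)
    (h0 : ∫ x in (0:ℝ)..1, logf α x < 0) (h1 : ∫ x in (0:ℝ)..1, logf (-α) x < 0) (z : ℂ) :
    ∀ᵐ u : ℝ, u ∈ Fall α 2 z := by
  by_contra hcon
  rw [ae_iff] at hcon
  have hm : volume (Fall α 2 z)ᶜ ≠ 0 := hcon
  obtain ⟨ρ, A, K, V, hV⟩ := exists_fam2 hα0 hα h0 h1 (tameStmt_of_gain hα0 hα hgain z) hm
  have hsq := re_sq_pos hα h0 h1
  have e1 : (α / 2).im = α.im / 2 := by simp
  have e2 : (α / 2).re = α.re / 2 := by simp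
  have hn : ‖α / 2‖ < 1 / 2 := by
    rw [norm_div]
    have : ‖(2:ℂ)‖ = 2 := by simp
    rw [this]; linarith
  have habs : |α.im| < α.re := abs_lt_of_sq_lt_sq hsq hre.le
  rw [abs_lt] at habs
  rcases le_or_gt 0 α.im with him | him
  · exact hno (α / 2) (by rw [e2]; linarith) (by rw [e1]; linarith) (by rw [e1, e2]; linarith) hn
      hreg ρ A K V hV
  · refine hno (conj (α / 2)) ?_ ?_ ?_ ?_ ?_ ρ A K _ hV.conj
    · rw [Complex.conj_re, e2]; linarith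
    · rw [Complex.conj_im, e1]; linarith
    · rw [Complex.conj_im, Complex.conj_re, e1, e2]; linarith
    · rw [Complex.norm_conj]; exact hn
    · rw [← map_pow]; exact hreg.conj

/-- **Star for `L = 2`**: every fixed `z` falls, for a.e. `u`. -/
theorem star_ae_two (hgain : ∀ α : ℂ, α ≠ 0 → ‖α‖ < 1 → |α.im| < α.re → GainStmt α)
    (hno : NoFam2) (hα0 : α ≠ 0) (hα : ‖α‖ < 1)
    (h0 : ∫ x in (0:ℝ)..1, logf α x < 0) (h1 : ∫ x in (0:ℝ)..1, logf (-α) x < 0) (z : ℂ) :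
    ∀ᵐ u : ℝ, u ∈ Fall α 2 z := by
  have hsq := re_sq_pos hα h0 h1
  rcases lt_trichotomy 0 α.re with hre | hre | hre
  · exact star_ae_two_pos hα0 hα hre (hgain α hα0 hα (abs_lt_of_sq_lt_sq hsq hre.le))
      (regE_of_int hα0 hα h0) hno h0 h1 z
  · exfalso
    rw [← hre] at hsq
    nlinarith [sq_nonneg α.im]
  · have hα' : ‖-α‖ < 1 := by rw [norm_neg]; exact hα
    have hα0' : -α ≠ 0 := neg_ne_zero.2 hα0
    have h0' : ∫ x in (0:ℝ)..1, logf (- -α) x < 0 := by rw [neg_neg]; exact h0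
    have hre' : 0 < (-α).re := by rw [Complex.neg_re]; linarith
    have hsq' : (-α).im ^ 2 < (-α).re ^ 2 := by
      rw [Complex.neg_re, Complex.neg_im, neg_sq, neg_sq]; exact hsq
    have := star_ae_two_pos hα0' hα' hre' (hgain (-α) hα0' hα' (abs_lt_of_sq_lt_sq hsq' hre'.le))
      (regE_of_int hα0' hα' h1) hno h1 h0' (1 - z)
    filter_upwards [this] with u hu
    exact (Fall_neg u z).1 hu

/-- **The conjecture for `L = 2`.** -/
theorem main_two (hgain : ∀ α : ℂ, α ≠ 0 → ‖α‖ < 1 → |α.im| < α.re → GainStmt α)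
    (hno : NoFam2) (hα0 : 0 < ‖α‖) (hα : ‖α‖ < 1)
    (h0 : ∫ x in (0:ℝ)..1, logf α x < 0) (h1 : ∫ x in (0:ℝ)..1, logf (-α) x < 0) :
    ∀ᵐ u ∂(volume.restrict (Ico (0:ℝ) 1)), randomFatou α 2 u = combinedBasin α 2 u := by
  have hα00 : α ≠ 0 := norm_pos_iff.1 hα0
  have hα' : ‖-α‖ < 1 := by rw [norm_neg]; exact hα
  obtain ⟨c₀, hc₀, hF₀⟩ := logf_ae (L := 2) hα le_rfl h0
  obtain ⟨c₁, hc₁, hF₁⟩ := logf_ae (L := 2) hα' le_rfl h1
  obtain ⟨D, hDc, hDd⟩ := TopologicalSpace.exists_countable_dense ℂ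
  have hD : ∀ᵐ u : ℝ, ∀ z ∈ D, u ∈ Fall α 2 z :=
    (ae_ball_iff hDc).2 fun z _ => star_ae_two hgain hno hα00 hα h0 h1 z
  rw [Measure.restrict_congr_set (Ico_ae_eq_Ioc (μ := volume) (a := (0:ℝ)) (b := 1))]
  have hLpos : 0 < 2 := by norm_num
  filter_upwards [hF₀.recur (L := 2) hLpos, hF₁.recur (L := 2) hLpos,
    (fam_inf (L := 2) hLpos).recur (L := 2) hLpos,
    ae_restrict_of_ae hD] with u hu0 hu1 hui huD
  obtain ⟨j, hj⟩ := hui
  exact fatou_eq_basin (rec_zero hα hc₀ hu0) (rec_one hα hc₁ hu1)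
    (rec_inf hα00 (θ := 1 / ((j:ℝ) + 1)) (by positivity) hj) hDd huD

end Pool.Agent.W_MP_4481e3_an
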