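import Pool.Agent.W_4481e3_q46.NearA

/-!
The near half plane theorem for `L = 2` (descent).
-/

namespace Pool.Agent.W_4481e3_q46

open Complex

/-- first excursion, side `c < 0`; here `c > 0` is the modulus of the cosine -/
lemma exc_neg {e : ℂ} (he : Adm e) {c : ℝ} (h0 : 0 < c) (h0' : c ≤ 10473 / 100000) {Z : ℂ}
    (hZ : 2 * (-c) * Z.re = 1) :
    23 / 10 ≤ ‖fc e (2 * (2 * (2 * (-c) ^ 2 - 1) ^ 2 - 1) ^ 2 - 1)
      (fc e (2 * (2 * (-c) ^ 2 - 1) ^ 2 - 1) (fc e (2 * (-c) ^ 2 - 1) (fc e (-c) Z)))‖ * c := by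
  have hc2 : c ^ 2 ≤ 1097 / 100000 := by nlinarith
  have hc2' : 0 ≤ c ^ 2 := sq_nonneg c
  set a : ℝ := 1 / (4 * c) with ha
  have hac : 4 * a * c = 1 := by rw [ha]; field_simp
  have ha0 : 2387 / 1000 ≤ a := by
    rw [ha, le_div_iff₀ (by linarith)]; linarith
  have hre : Z.re = -(2 * a) := by
    have : c * (Z.re + 2 * a) = 0 := by nlinarith
    rcases mul_eq_zero.1 this with h | h
    · exact absurd h h0.ne'
    · linarith
  have hpq : e.re ^ 2 + e.im ^ 2 ≤ 1 / 16 := by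
    have h1 := Complex.sq_norm e
    rw [Complex.normSq_apply] at h1
    have := he.norm
    nlinarith [norm_nonneg e]
  set p := e.re with hp
  set q := e.im with hq
  set y := Z.im with hy
  set A := a + c * (p + y ^ 2) with hA
  set s := 1 - 2 * c ^ 2 with hs
  set Z1 := fc e (-c) Z with hZ1
  have h1re : Z1.re = -A := by
    rw [hZ1, fc_re, hre, ← hp, ← hy, hA]
    have : c * (2 * a) ^ 2 = a := by
      have : c * (2 * a) ^ 2 = (4 * a * c) * a := by ring
      rw [this, hac, one_mul]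
    linear_combination this
  have h1im : Z1.im = -(c * q) := by
    rw [hZ1, fc_im, hre, ← hq, ← hy]
    linear_combination (-y) * hac
  have hs1 : 2 * (-c) ^ 2 - 1 = -s := by rw [hs]; ring
  rw [hs1]
  set Z2 := fc e (-s) Z1 with hZ2
  have h2re : Z2.re = s * A ^ 2 - A - s * p - s * (c * q) ^ 2 := by
    rw [hZ2, fc_re, h1re, h1im]; ring
  have h2im : Z2.im = q * (s * (2 * A * c - 1) - c) := by
    rw [hZ2, fc_im, h1re, h1im]; ring
  obtain ⟨hX1, hX2, hY⟩ := exc_aux h0 h0' hac ha0 he.re hpq hA hs h2re h2im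
  have hs978 : 97806 / 100000 ≤ s := by rw [hs]; linarith
  have hsle : s ≤ 1 := by rw [hs]; linarith
  set d := 2 * (-s) ^ 2 - 1 with hd
  have hd1 : 913 / 1000 ≤ d := by rw [hd]; nlinarith
  have hd2 : d ≤ 1 := by rw [hd]; nlinarith
  set g := 2 * d ^ 2 - 1 with hg
  have hg1 : 667 / 1000 ≤ g := by rw [hg]; nlinarith
  have hg2 : g ≤ 1 := by rw [hg]; nlinarith
  set Z3 := fc e d Z2 with hZ3
  have hp4 : p ≤ 1 / 4 := by nlinarith [sq_nonneg q]
  set X := Z2.re with hXd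
  set Y := Z2.im with hYd
  have hYsq : Y ^ 2 ≤ 1 / 400 * X ^ 2 := by
    have h1 : |Y| ^ 2 ≤ (1 / 20 * X) ^ 2 := pow_le_pow_left₀ (abs_nonneg _) hY 2
    rw [sq_abs] at h1
    nlinarith
  have h3re : Z3.re = X + d * (p - X ^ 2 + Y ^ 2) := by
    rw [hZ3, fc_re]
  have h3a : Z3.re ≤ X - 913 / 1000 * (399 / 400 * X ^ 2 - 1 / 4) := by
    rw [h3re]
    have h4 : 399 / 400 * X ^ 2 - 1 / 4 ≤ X ^ 2 - Y ^ 2 - p := by linarith
    have h5 : 0 ≤ 399 / 400 * X ^ 2 - 1 / 4 := by nlinarith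
    nlinarith
  have h3b : Z3.re ≤ -(51 / 10) := by nlinarith
  have h3c : Z3.re ≤ -(1682 / 1000 * X) := by nlinarith
  have h3n : -Z3.re ≤ ‖Z3‖ := by
    have := abs_re_le_norm Z3
    exact (neg_le_abs _).trans this
  have h4 := fc_norm_ge he (c := g) (by rw [abs_of_nonneg (by linarith)]; exact hg2) Z3
  have h5 := one_sub_re_le g Z3
  have h6 : 44 / 10 ≤ ‖1 - (g : ℂ) * Z3‖ := by nlinarith
  have h7 : 2136 / 1000 * a ≤ ‖Z3‖ := by linarith
  have h8 : 51 / 10 ≤ ‖Z3‖ := by linarith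
  have h9 : 435 / 100 * ‖Z3‖ ≤ ‖fc e g Z3‖ := by nlinarith
  have h10 : 92 / 10 * a ≤ ‖fc e g Z3‖ := by linarith
  nlinarith

section leaf

variable {e : ℂ} {P : ℝ} {W : ℕ → ℝ → ℂ}

lemma cos_dbl (x : ℝ) : Real.cos (2 * Real.pi * (2 * x)) = 2 * Real.cos (2 * Real.pi * x) ^ 2 - 1 := by
  have : 2 * Real.pi * (2 * x) = 2 * (2 * Real.pi * x) := by ring
  rw [this, Real.cos_two_mul]

lemma CLeaf.succ (hW : CLeaf e P W) (k : ℕ) (x : ℝ) :
    W (k + 1) (2 * x) = fc e (Real.cos (2 * Real.pi * x)) (W k x) := hW.recur k x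

/-- from a crossing, four steps later the modulus is at least `2.3/|c|` -/
lemma CLeaf.first (hW : CLeaf e P W) (he : Adm e) {k : ℕ} {x : ℝ}
    (h : 2 * Real.cos (2 * Real.pi * x) * (W k x).re = 1)
    (hc : |Real.cos (2 * Real.pi * x)| ≤ 10473 / 100000) :
    ∃ k' x', 23 / 10 ≤ ‖W k' x'‖ * |Real.cos (2 * Real.pi * x)| := by
  set c := Real.cos (2 * Real.pi * x) with hcd
  have hc0 : c ≠ 0 := by
    intro h0; rw [h0] at h; norm_num at h
  rcases lt_or_gt_of_ne hc0 with hlt | hgt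
  · refine ⟨k + 1 + 1 + 1 + 1, 2 * (2 * (2 * (2 * x))), ?_⟩
    rw [abs_of_neg hlt] at hc ⊢
    have hx := exc_neg he (c := -c) (by linarith) hc (Z := W k x) (by rw [neg_neg]; exact h)
    rw [neg_neg] at hx
    rw [hW.succ, hW.succ, hW.succ, hW.succ, cos_dbl, cos_dbl, cos_dbl, ← hcd]
    exact hx
  · refine ⟨k + 1 + 1 + 1, 2 * (2 * (2 * x)), ?_⟩
    rw [abs_of_pos hgt] at hc ⊢
    have hx := exc_pos he hgt hc (Z := W k x) h
    rw [hW.succ, hW.succ, hW.succ, cos_dbl, cos_dbl, ← hcd]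
    exact hx

lemma abs_cos_quarter (n : ℤ) (x : ℝ) :
    |Real.cos (2 * Real.pi * x)| = |Real.sin (2 * Real.pi * (x - (n / 2 + 1 / 4)))| := by
  have h1 : 2 * Real.pi * x = (2 * Real.pi * (x - (n / 2 + 1 / 4)) + Real.pi / 2) + n * Real.pi := by
    ring
  rw [h1, Real.cos_add_int_mul_pi, Real.cos_add_pi_div_two, abs_mul, abs_zpow, abs_neg, abs_one,
    one_zpow, one_mul, abs_neg]

/-- a crossing between a quarter point and `x` -/
lemma CLeaf.ivt (hW : CLeaf e P W) {k : ℕ} {x : ℝ} (n : ℤ) (hx : |x - (n / 2 + 1 / 4)| ≤ 1 / 4)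
    (h : 1 ≤ 2 * Real.cos (2 * Real.pi * x) * (W k x).re) :
    ∃ x', 2 * Real.cos (2 * Real.pi * x') * (W k x').re = 1 ∧
      |Real.cos (2 * Real.pi * x')| ≤ |Real.cos (2 * Real.pi * x)| := by
  set q : ℝ := n / 2 + 1 / 4 with hq
  set φ : ℝ → ℝ := fun θ => 2 * Real.cos (2 * Real.pi * (q + θ * (x - q))) *
    (W k (q + θ * (x - q))).re with hφ
  have hcont : Continuous φ := by
    have h1 := hW.cont k
    have h2 : Continuous fun θ : ℝ => q + θ * (x - q) := by fun_prop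
    have h3 : Continuous fun θ : ℝ => (W k (q + θ * (x - q))).re :=
      continuous_re.comp (h1.comp h2)
    have h4 : Continuous fun θ : ℝ => 2 * Real.cos (2 * Real.pi * (q + θ * (x - q))) := by fun_prop
    exact h4.mul h3
  have h0 : φ 0 = 0 := by
    simp only [hφ, zero_mul, add_zero]
    have h1 : |Real.cos (2 * Real.pi * q)| = 0 := by
      rw [abs_cos_quarter n q, ← hq, sub_self, mul_zero, Real.sin_zero, abs_zero]
    rw [abs_eq_zero.1 h1]; ring
  have h1 : 1 ≤ φ 1 := by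
    simp only [hφ, one_mul]
    rw [add_sub_cancel]; exact h
  obtain ⟨θ, hθ, hθ1⟩ : ∃ θ ∈ Set.Icc (0:ℝ) 1, φ θ = 1 :=
    intermediate_value_Icc zero_le_one hcont.continuousOn ⟨by rw [h0]; norm_num, h1⟩
  refine ⟨q + θ * (x - q), hθ1, ?_⟩
  rw [abs_cos_quarter n x, abs_cos_quarter n (q + θ * (x - q)), ← hq, add_sub_cancel_left]
  have hpi := Real.pi_pos
  have key : ∀ u : ℝ, |u| ≤ 1 / 4 → |Real.sin (2 * Real.pi * u)| = Real.sin (2 * Real.pi * |u|) := by
    intro u hu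
    rcases le_total 0 u with h | h
    · rw [abs_of_nonneg h] at hu ⊢
      apply abs_of_nonneg
      apply Real.sin_nonneg_of_nonneg_of_le_pi (by positivity)
      nlinarith
    · rw [abs_of_nonpos h] at hu ⊢
      have : 2 * Real.pi * u = -(2 * Real.pi * -u) := by ring
      rw [this, Real.sin_neg, abs_neg]
      apply abs_of_nonneg
      apply Real.sin_nonneg_of_nonneg_of_le_pi (by nlinarith)
      nlinarith
  have hle : |θ * (x - q)| ≤ |x - q| := by
    rw [abs_mul, abs_of_nonneg hθ.1]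
    have := abs_nonneg (x - q)
    nlinarith [hθ.2]
  rw [key _ hx, key _ (hle.trans hx)]
  apply Real.sin_le_sin_of_le_of_le_pi_div_two
  · have := abs_nonneg (θ * (x - q)); nlinarith
  · nlinarith
  · nlinarith

lemma exists_quarter (x : ℝ) : ∃ n : ℤ, |x - (n / 2 + 1 / 4)| ≤ 1 / 4 := by
  refine ⟨round (2 * x - 1 / 2), ?_⟩
  have h := abs_sub_round (2 * x - 1 / 2)
  have h2 : x - ((round (2 * x - 1 / 2) : ℝ) / 2 + 1 / 4) =
      (2 * x - 1 / 2 - round (2 * x - 1 / 2)) / 2 := by ring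
  rw [h2, abs_div, abs_two]
  linarith

/-- **Descent step.** -/
lemma CLeaf.descent (hW : CLeaf e P W) (he : Adm e) {k : ℕ} {x : ℝ}
    (h : 2 * Real.cos (2 * Real.pi * x) * (W k x).re = 1)
    (hc : |Real.cos (2 * Real.pi * x)| ≤ 10473 / 100000) :
    ∃ k' x', 2 * Real.cos (2 * Real.pi * x') * (W k' x').re = 1 ∧
      |Real.cos (2 * Real.pi * x')| ≤ 9 / 10 * |Real.cos (2 * Real.pi * x)| := by
  by_contra hcon
  push Not at hcon
  set c₀ := |Real.cos (2 * Real.pi * x)| with hc₀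
  have hc₀0 : 0 < c₀ := by
    rw [hc₀, abs_pos]
    intro h0; rw [h0] at h; norm_num at h
  have hgrow : ∀ N : ℕ, ∃ k' x', 23 / 10 ≤ ‖W k' x'‖ * c₀ ∧ (21 / 20 : ℝ) ^ N ≤ ‖W k' x'‖ := by
    intro N
    induction N with
    | zero =>
      obtain ⟨k', x', h'⟩ := hW.first he h hc
      refine ⟨k', x', h', ?_⟩
      rw [pow_zero]
      by_contra hlt
      push Not at hlt
      nlinarith
    | succ N ih =>
      obtain ⟨k', x', h1, h2⟩ := ih
      set c := Real.cos (2 * Real.pi * x') with hcd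
      set Z := W k' x' with hZ
      have hcabs : |c| ≤ 1 := Real.abs_cos_le_one _
      have hZn : 21 ≤ ‖Z‖ := by
        by_contra hlt
        push Not at hlt
        nlinarith
      rcases le_or_gt (9 / 10 * c₀) |c| with hge | hlt
      · refine ⟨k' + 1, 2 * x', ?_, ?_⟩
        · rw [hW.succ, ← hcd, ← hZ]
          have := grow_one he hcabs hc₀0 hc hge h1
          nlinarith
        · rw [hW.succ, ← hcd, ← hZ]
          have := grow_one he hcabs hc₀0 hc hge h1
          rw [pow_succ]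
          nlinarith
      · have hnear : 2 * c * Z.re < 1 := by
          by_contra hcon2
          push Not at hcon2
          obtain ⟨n, hn⟩ := exists_quarter x'
          obtain ⟨x'', h3, h4⟩ := hW.ivt n hn hcon2
          have := hcon k' x'' h3
          rw [← hcd] at h4
          linarith
        have h5 := grow_two he (c := c) (by linarith) hZn hnear
        refine ⟨k' + 1 + 1, 2 * (2 * x'), ?_, ?_⟩
        · rw [hW.succ, hW.succ, cos_dbl, ← hcd, ← hZ]
          nlinarith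
        · rw [hW.succ, hW.succ, cos_dbl, ← hcd, ← hZ, pow_succ]
          nlinarith
  obtain ⟨N, hN⟩ := pow_unbounded_of_one_lt P (show (1:ℝ) < 21 / 20 by norm_num)
  obtain ⟨k', x', -, h2⟩ := hgrow N
  have := hW.bd k' x'
  linarith

/-- there is no crossing of the critical line with `|cos| ≤ 0.10473` -/
theorem CLeaf.no_cross (hW : CLeaf e P W) (he : Adm e) {k : ℕ} {x : ℝ}
    (hc : |Real.cos (2 * Real.pi * x)| ≤ 10473 / 100000) :
    2 * Real.cos (2 * Real.pi * x) * (W k x).re ≠ 1 := by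
  intro h
  have key : ∀ N : ℕ, ∃ k' x', 2 * Real.cos (2 * Real.pi * x') * (W k' x').re = 1 ∧
      |Real.cos (2 * Real.pi * x')| ≤ (9 / 10 : ℝ) ^ N * (10473 / 100000) := by
    intro N
    induction N with
    | zero => exact ⟨k, x, h, by rw [pow_zero, one_mul]; exact hc⟩
    | succ N ih =>
      obtain ⟨k', x', h1, h2⟩ := ih
      have hp : (9 / 10 : ℝ) ^ N ≤ 1 := pow_le_one₀ (by norm_num) (by norm_num)
      obtain ⟨k'', x'', h3, h4⟩ := hW.descent he h1 (by nlinarith)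
      refine ⟨k'', x'', h3, ?_⟩
      rw [pow_succ]
      nlinarith
  obtain ⟨N, hN⟩ := exists_pow_lt_of_lt_one (show (0:ℝ) < 1 / (2 * (|P| + 1)) by positivity)
    (show (9 / 10 : ℝ) < 1 by norm_num)
  obtain ⟨k', x', h1, h2⟩ := key N
  have h3 : |(W k' x').re| ≤ |P| + 1 :=
    (abs_re_le_norm _).trans ((hW.bd k' x').trans (by linarith [le_abs_self P]))
  have h4 : 1 ≤ 2 * (|Real.cos (2 * Real.pi * x')| * |(W k' x').re|) := by
    have h5 : |2 * Real.cos (2 * Real.pi * x') * (W k' x').re| = 1 := by rw [h1, abs_one]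
    rw [abs_mul, abs_mul, abs_two] at h5
    linarith
  have hP : 0 < |P| + 1 := by positivity
  rw [lt_div_iff₀ (by positivity)] at hN
  have h6 : |Real.cos (2 * Real.pi * x')| * |(W k' x').re| ≤
      ((9 / 10 : ℝ) ^ N * (10473 / 100000)) * (|P| + 1) := by
    have := abs_nonneg (W k' x').re
    have := abs_nonneg (Real.cos (2 * Real.pi * x'))
    have : (0:ℝ) ≤ (9 / 10 : ℝ) ^ N * (10473 / 100000) := by positivity
    calc _ ≤ ((9 / 10 : ℝ) ^ N * (10473 / 100000)) * |(W k' x').re| := by gcongr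
      _ ≤ _ := by gcongr
  have h7 : (0:ℝ) < (9 / 10 : ℝ) ^ N := by positivity
  nlinarith

/-- **Near half plane.** For `|x - q| ≤ 1/60`, `q` a quarter point. -/
theorem CLeaf.near_half (hW : CLeaf e P W) (he : Adm e) (k : ℕ) (n : ℤ) {x : ℝ}
    (hx : |x - (n / 2 + 1 / 4)| ≤ 1 / 60) :
    2 * Real.cos (2 * Real.pi * x) * (W k x).re < 1 := by
  by_contra hcon
  push Not at hcon
  obtain ⟨x', h1, h2⟩ := hW.ivt n (hx.trans (by norm_num)) hcon
  refine hW.no_cross he (k := k) (x := x') (h2.trans ?_) h1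
  rw [abs_cos_quarter n x]
  refine (Real.abs_sin_le_abs).trans ?_
  rw [abs_mul, abs_mul, abs_two, abs_of_pos Real.pi_pos]
  have := Real.pi_lt_d4
  have := Real.pi_pos
  nlinarith [abs_nonneg (x - (n / 2 + 1 / 4))]

end leaf

end Pool.Agent.W_4481e3_q46
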