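import Mathlib

/-!
L = 2: a bounded continuous forward leaf is in the near half plane `Re (2 c W) < 1`
as long as the base point is within `1/60` of a quarter point.

Coordinates: `x` is the base point (a real lift), `W k x` the leaf at time `k`,
`W (k+1) (2x) = W k x + cos (2 π x) (e - (W k x)^2)`, `e = ε^2`.

Proof: a crossing of the critical line with `|cos| = c₀` produces a later crossing with
`|cos| ≤ (9/10) c₀`, otherwise the orbit of the crossing point tends to infinity.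
-/

namespace Pool.Agent.W_4481e3_q46

open Complex

/-- forward leaf in the absolute coordinate -/
structure CLeaf (e : ℂ) (P : ℝ) (W : ℕ → ℝ → ℂ) : Prop where
  bd : ∀ k x, ‖W k x‖ ≤ P
  cont : ∀ k, Continuous (W k)
  recur : ∀ k x, W (k + 1) (2 * x) =
    W k x + (Real.cos (2 * Real.pi * x) : ℂ) * (e - W k x ^ 2)

/-- the admissible parameters that are needed here -/
structure Adm (e : ℂ) : Prop where
  norm : ‖e‖ ≤ 1 / 4
  re : 0 ≤ e.re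

/-- one step -/
noncomputable def fc (e : ℂ) (c : ℝ) (Z : ℂ) : ℂ := Z + (c : ℂ) * (e - Z ^ 2)

lemma fc_re (e : ℂ) (c : ℝ) (Z : ℂ) : (fc e c Z).re = Z.re + c * (e.re - Z.re ^ 2 + Z.im ^ 2) := by
  unfold fc
  rw [add_re, re_ofReal_mul, sub_re, pow_two, mul_re]
  ring

lemma fc_im (e : ℂ) (c : ℝ) (Z : ℂ) : (fc e c Z).im = Z.im + c * (e.im - 2 * Z.re * Z.im) := by
  unfold fc
  rw [add_im, im_ofReal_mul, sub_im, pow_two, mul_im]
  ring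

lemma fc_norm_ge {e : ℂ} (he : Adm e) {c : ℝ} (hc : |c| ≤ 1) (Z : ℂ) :
    ‖Z‖ * ‖1 - (c : ℂ) * Z‖ - 1 / 4 ≤ ‖fc e c Z‖ := by
  have h1 : fc e c Z = Z * (1 - (c : ℂ) * Z) + (c : ℂ) * e := by unfold fc; ring
  have h2 : ‖(c : ℂ) * e‖ ≤ 1 / 4 := by
    rw [norm_mul, norm_real, Real.norm_eq_abs]
    have := he.norm
    have := abs_nonneg c
    have := norm_nonneg e
    nlinarith
  have h3 : Z * (1 - (c : ℂ) * Z) = fc e c Z - (c : ℂ) * e := by rw [h1]; ring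
  have h4 : ‖Z * (1 - (c : ℂ) * Z)‖ ≤ ‖fc e c Z‖ + ‖(c : ℂ) * e‖ := by
    rw [h3]; exact norm_sub_le _ _
  rw [norm_mul] at h4
  linarith

lemma one_sub_norm_ge (c : ℝ) (Z : ℂ) : |c| * ‖Z‖ - 1 ≤ ‖1 - (c : ℂ) * Z‖ := by
  have h1 : ‖(c : ℂ) * Z‖ = |c| * ‖Z‖ := by rw [norm_mul, norm_real, Real.norm_eq_abs]
  have h2 := norm_sub_norm_le ((c : ℂ) * Z) 1
  rw [norm_one, h1] at h2
  rw [norm_sub_rev]
  exact h2

lemma one_sub_re_le (c : ℝ) (Z : ℂ) : 1 - c * Z.re ≤ ‖1 - (c : ℂ) * Z‖ := by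
  have h := re_le_norm (1 - (c : ℂ) * Z)
  rw [sub_re, one_re, re_ofReal_mul] at h
  exact h

/-- growth away from the quarter points -/
lemma grow_one {e : ℂ} (he : Adm e) {c c₀ : ℝ} (hc : |c| ≤ 1) (h0 : 0 < c₀)
    (h0' : c₀ ≤ 10473 / 100000) (hcc : 9 / 10 * c₀ ≤ |c|) {Z : ℂ} (hZ : 23 / 10 ≤ ‖Z‖ * c₀) :
    21 / 20 * ‖Z‖ ≤ ‖fc e c Z‖ := by
  have h1 := fc_norm_ge he hc Z
  have h2 := one_sub_norm_ge c Z
  have hn := norm_nonneg Z
  have h3 : 207 / 100 ≤ |c| * ‖Z‖ := by nlinarith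
  have h4 : 21 ≤ ‖Z‖ := by
    by_contra hlt
    push Not at hlt
    nlinarith
  nlinarith

/-- growth near the quarter points, on the near side: two steps -/
lemma grow_two {e : ℂ} (he : Adm e) {c : ℝ} (hc : |c| ≤ 1 / 10) {Z : ℂ} (hZ : 21 ≤ ‖Z‖)
    (hn : 2 * c * Z.re < 1) :
    21 / 20 * ‖Z‖ ≤ ‖fc e (2 * c ^ 2 - 1) (fc e c Z)‖ := by
  have h1 := fc_norm_ge he (by linarith : |c| ≤ 1) Z
  have h2 := one_sub_re_le c Z
  have h3 : (1:ℝ) / 2 ≤ ‖1 - (c : ℂ) * Z‖ := by linarith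
  have h4 : 48 / 100 * ‖Z‖ ≤ ‖fc e c Z‖ := by nlinarith
  set V := fc e c Z with hV
  have hc2 : c ^ 2 ≤ 1 / 100 := by
    rw [← sq_abs]
    have := abs_nonneg c
    nlinarith
  have hc2' : 0 ≤ c ^ 2 := sq_nonneg c
  have h5 : |2 * c ^ 2 - 1| = 1 - 2 * c ^ 2 := by
    rw [abs_of_nonpos (by linarith)]; ring
  have h6 := fc_norm_ge he (c := 2 * c ^ 2 - 1) (by rw [h5]; linarith) V
  have h7 := one_sub_norm_ge (2 * c ^ 2 - 1) V
  rw [h5] at h7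
  have hV10 : 10 ≤ ‖V‖ := by linarith
  have h8 : 98 / 100 * ‖V‖ - 1 ≤ ‖1 - ((2 * c ^ 2 - 1 : ℝ) : ℂ) * V‖ := by nlinarith
  have h9 : (8:ℝ) ≤ ‖1 - ((2 * c ^ 2 - 1 : ℝ) : ℂ) * V‖ := by linarith
  nlinarith

/-- first excursion, side `c > 0` -/
lemma exc_pos {e : ℂ} (he : Adm e) {c : ℝ} (h0 : 0 < c) (h0' : c ≤ 10473 / 100000) {Z : ℂ}
    (hZ : 2 * c * Z.re = 1) :
    23 / 10 ≤ ‖fc e (2 * (2 * c ^ 2 - 1) ^ 2 - 1) (fc e (2 * c ^ 2 - 1) (fc e c Z))‖ * c := by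
  have hc2 : c ^ 2 ≤ 11 / 1000 := by nlinarith
  have hc2' : 0 ≤ c ^ 2 := sq_nonneg c
  set a : ℝ := 1 / (4 * c) with ha
  have hac : 4 * a * c = 1 := by rw [ha]; field_simp
  have ha0 : 238 / 100 ≤ a := by
    rw [ha, le_div_iff₀ (by linarith)]; linarith
  have hre : Z.re = 2 * a := by
    have : c * (Z.re - 2 * a) = 0 := by nlinarith
    rcases mul_eq_zero.1 this with h | h
    · exact absurd h h0.ne'
    · linarith
  set Z1 := fc e c Z with hZ1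
  have h1 : a ≤ Z1.re := by
    rw [hZ1, fc_re, hre]
    have h2 : 2 * a + c * (e.re - (2 * a) ^ 2 + Z.im ^ 2) = a + c * (e.re + Z.im ^ 2) := by
      have : c * (2 * a) ^ 2 = a := by
        have : c * (2 * a) ^ 2 = (4 * a * c) * a := by ring
        rw [this, hac, one_mul]
      linarith [mul_add c (e.re - (2 * a) ^ 2) (Z.im ^ 2), mul_sub c e.re ((2 * a) ^ 2),
        mul_add c e.re (Z.im ^ 2)]
    rw [h2]
    have := he.re
    have : 0 ≤ c * (e.re + Z.im ^ 2) := by positivity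
    linarith
  have h1n : a ≤ ‖Z1‖ := h1.trans (re_le_norm _)
  have hs : |2 * c ^ 2 - 1| = 1 - 2 * c ^ 2 := by
    rw [abs_of_nonpos (by linarith)]; ring
  have h2 := fc_norm_ge he (c := 2 * c ^ 2 - 1) (by rw [hs]; linarith) Z1
  have h3 := one_sub_re_le (2 * c ^ 2 - 1) Z1
  have h4 : 33 / 10 ≤ ‖1 - ((2 * c ^ 2 - 1 : ℝ) : ℂ) * Z1‖ := by nlinarith
  set Z2 := fc e (2 * c ^ 2 - 1) Z1 with hZ2
  have h5 : 3 * a ≤ ‖Z2‖ := by nlinarith
  have h6 : (7:ℝ) ≤ ‖Z2‖ := by linarith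
  have hd : 9 / 10 ≤ 2 * (2 * c ^ 2 - 1) ^ 2 - 1 := by nlinarith
  have hd' : 2 * (2 * c ^ 2 - 1) ^ 2 - 1 ≤ 1 := by nlinarith
  set d := 2 * (2 * c ^ 2 - 1) ^ 2 - 1 with hdd
  have hda : |d| = d := abs_of_nonneg (by linarith)
  have h7 := fc_norm_ge he (c := d) (by rw [hda]; exact hd') Z2
  have h8 := one_sub_norm_ge d Z2
  rw [hda] at h8
  have h9 : (5:ℝ) ≤ ‖1 - (d : ℂ) * Z2‖ := by nlinarith
  have h10 : 14 * a ≤ ‖fc e d Z2‖ := by nlinarith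
  nlinarith

/-- real inequalities for the first excursion, side `c < 0` -/
lemma exc_aux {a c p q y : ℝ} (h0 : 0 < c) (h0' : c ≤ 10473 / 100000) (hac : 4 * a * c = 1)
    (ha : 2387 / 1000 ≤ a) (hp : 0 ≤ p) (hpq : p ^ 2 + q ^ 2 ≤ 1 / 16) {A s X Y : ℝ}
    (hA : A = a + c * (p + y ^ 2)) (hs : s = 1 - 2 * c ^ 2)
    (hX : X = s * A ^ 2 - A - s * p - s * (c * q) ^ 2)
    (hY : Y = q * (s * (2 * A * c - 1) - c)) :
    303 / 100 ≤ X ∧ 127 / 100 * a ≤ X ∧ |Y| ≤ 1 / 20 * X := by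
  have hc2 : c ^ 2 ≤ 1097 / 100000 := by nlinarith
  have hc2' : 0 ≤ c ^ 2 := sq_nonneg c
  have hs1 : 978 / 1000 ≤ s := by rw [hs]; linarith
  have hs2 : s ≤ 1 := by rw [hs]; linarith
  have hp4 : p ≤ 1 / 4 := by nlinarith [sq_nonneg q]
  have hq2 : q ^ 2 ≤ 1 / 16 := by nlinarith [sq_nonneg p]
  have hy : 0 ≤ y ^ 2 := sq_nonneg y
  -- s/2 + c
  have hsc : s / 2 + c ≤ 594 / 1000 := by
    rw [hs]; nlinarith
  have hA2 : A ^ 2 = a ^ 2 + (p + y ^ 2) / 2 + c ^ 2 * (p + y ^ 2) ^ 2 := by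
    rw [hA]
    have : a * c = 1 / 4 := by linarith
    have e1 : (a + c * (p + y ^ 2)) ^ 2 = a ^ 2 + 2 * (a * c) * (p + y ^ 2) + c ^ 2 * (p + y ^ 2) ^ 2 := by
      ring
    rw [e1, this]; ring
  have hcq : (c * q) ^ 2 ≤ 7 / 10000 := by
    have : (c * q) ^ 2 = c ^ 2 * q ^ 2 := by ring
    rw [this]
    nlinarith [sq_nonneg q]
  have hXl : s * a ^ 2 - a - (s / 2 + c) * p + (s / 2 - c) * y ^ 2 - 7 / 10000 ≤ X := by
    rw [hX, hA2, hA]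
    have h1 : 0 ≤ s * (c ^ 2 * (p + y ^ 2) ^ 2) := by positivity
    have h2 : s * (c * q) ^ 2 ≤ 7 / 10000 := by nlinarith [sq_nonneg (c * q)]
    nlinarith
  have h3 : (s / 2 + c) * p ≤ 1485 / 10000 := by nlinarith
  have h4 : 38 / 100 * y ^ 2 ≤ (s / 2 - c) * y ^ 2 := by
    have : 38 / 100 ≤ s / 2 - c := by linarith
    nlinarith
  have h5 : s * a ^ 2 - a - 1492 / 10000 + 38 / 100 * y ^ 2 ≤ X := by linarith
  have h6 : 978 / 1000 * a ^ 2 ≤ s * a ^ 2 := by nlinarith [sq_nonneg a]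
  have hX1 : 303 / 100 + 38 / 100 * y ^ 2 ≤ X := by
    -- s a^2 - a >= 3.1803 : need the sharper s
    have hs3 : 97806 / 100000 ≤ s := by rw [hs]; linarith
    nlinarith
  have hX2 : 127 / 100 * a ≤ X := by
    nlinarith
  refine ⟨by linarith, hX2, ?_⟩
  have hm : 2 * A * c - 1 = -(1/2) + 2 * c ^ 2 * (p + y ^ 2) := by
    rw [hA]
    have : a * c = 1 / 4 := by linarith
    have e1 : 2 * (a + c * (p + y ^ 2)) * c - 1 = 2 * (a * c) - 1 + 2 * c ^ 2 * (p + y ^ 2) := by ring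
    rw [e1, this]; ring
  have hq : |q| ≤ 1 / 4 := by
    rw [← abs_of_nonneg (show (0:ℝ) ≤ 1 / 4 by norm_num)]
    exact sq_le_sq.1 (by norm_num; linarith)
  have hB : |s * (2 * A * c - 1) - c| ≤ 594 / 1000 + 2 * c ^ 2 * (p + y ^ 2) := by
    rw [hm]
    have h7 : 0 ≤ 2 * c ^ 2 * (p + y ^ 2) := by positivity
    rw [abs_le]
    constructor <;> nlinarith
  rw [hY, abs_mul]
  have h8 : 2 * c ^ 2 * (p + y ^ 2) ≤ 22 / 1000 * (1 / 4 + y ^ 2) := by nlinarith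
  have h9 : |q| * |s * (2 * A * c - 1) - c| ≤ 1 / 4 * (594 / 1000 + 22 / 1000 * (1 / 4 + y ^ 2)) := by
    have := abs_nonneg q
    have := abs_nonneg (s * (2 * A * c - 1) - c)
    nlinarith
  nlinarith

end Pool.Agent.W_4481e3_q46
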