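import Mathlib

/-!
Step functions given by a table.

A row has a left end `lo` and values `kap p`, `tau p`, `beta p` for the four phases.  `pick d rs A`
is the last row of the chain `d :: rs` whose left end is at most `A`.
-/

namespace Pool.Agent.W_4481e3_q46

/-- a row of the table -/
structure Row where
  lo : ℝ
  kap : ℕ → ℝ
  tau : ℕ → ℝ
  beta : ℕ → ℝ

/-- the row valid at `A` -/
noncomputable def pick (d : Row) : List Row → ℝ → Row
  | [], _ => d
  | r :: rs, A => open Classical in if r.lo ≤ A then pick r rs A else d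

/-- comparison of rows -/
def RLe (r s : Row) : Prop := ∀ p < 4, r.kap p ≤ s.kap p ∧ s.tau p ≤ r.tau p ∧ r.beta p ≤ s.beta p

lemma RLe.refl (r : Row) : RLe r r := fun _ _ => ⟨le_rfl, le_rfl, le_rfl⟩

lemma RLe.trans {r s t : Row} (h : RLe r s) (h' : RLe s t) : RLe r t := fun p hp =>
  ⟨(h p hp).1.trans (h' p hp).1, (h' p hp).2.1.trans (h p hp).2.1, (h p hp).2.2.trans (h' p hp).2.2⟩

/-- the rows are increasing along the chain -/
def Mono (d : Row) : List Row → Prop
  | [] => True
  | r :: rs => RLe d r ∧ Mono r rs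

/-- a property of the rows and of their intervals -/
def AllRows (P : Row → ℝ → ℝ → Prop) (top : ℝ) (d : Row) : List Row → Prop
  | [] => P d d.lo top
  | r :: rs => P d d.lo r.lo ∧ AllRows P top r rs

/-- a property of the rows -/
def EachRow (P : Row → Prop) (d : Row) (rs : List Row) : Prop := P d ∧ ∀ r ∈ rs, P r

lemma pick_ge {d : Row} {rs : List Row} (h : Mono d rs) (A : ℝ) : RLe d (pick d rs A) := by
  induction rs generalizing d with
  | nil => exact RLe.refl d
  | cons r rs ih =>
    obtain ⟨h1, h2⟩ := h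
    unfold pick
    split_ifs
    · exact h1.trans (ih h2)
    · exact RLe.refl d

lemma pick_mono {d : Row} {rs : List Row} (h : Mono d rs) {A B : ℝ} (hAB : A ≤ B) :
    RLe (pick d rs A) (pick d rs B) := by
  induction rs generalizing d with
  | nil => exact RLe.refl d
  | cons r rs ih =>
    obtain ⟨h1, h2⟩ := h
    unfold pick
    by_cases hA : r.lo ≤ A
    · rw [if_pos hA, if_pos (hA.trans hAB)]
      exact ih h2
    · rw [if_neg hA]
      split_ifs
      · exact h1.trans (pick_ge h2 B)
      · exact RLe.refl d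

lemma pick_mem {P : Row → Prop} {d : Row} {rs : List Row} (h : EachRow P d rs) (A : ℝ) :
    P (pick d rs A) := by
  induction rs generalizing d with
  | nil => exact h.1
  | cons r rs ih =>
    unfold pick
    split_ifs
    · exact ih ⟨h.2 r (by simp), fun s hs => h.2 s (by simp [hs])⟩
    · exact h.1

/-- at `A` the row `pick d rs A` is used on an interval containing `A` -/
lemma pick_all {P : Row → ℝ → ℝ → Prop} {top : ℝ} {d : Row} {rs : List Row}
    (h : AllRows P top d rs) {A : ℝ} (h1 : d.lo ≤ A) (h2 : A ≤ top) :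
    ∃ lo hi, lo ≤ A ∧ A ≤ hi ∧ P (pick d rs A) lo hi := by
  induction rs generalizing d with
  | nil => exact ⟨d.lo, top, h1, h2, h⟩
  | cons r rs ih =>
    obtain ⟨h3, h4⟩ := h
    unfold pick
    by_cases hA : r.lo ≤ A
    · rw [if_pos hA]
      exact ih h4 hA
    · rw [if_neg hA]
      exact ⟨d.lo, r.lo, h1, (not_le.1 hA).le, h3⟩

/-- the step functions, period `4` in the phase -/
noncomputable def kapT (d : Row) (rs : List Row) (p : ℕ) (A : ℝ) : ℝ := (pick d rs A).kap (p % 4)
noncomputable def tauT (d : Row) (rs : List Row) (p : ℕ) (A : ℝ) : ℝ := (pick d rs A).tau (p % 4)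
noncomputable def betaT (d : Row) (rs : List Row) (p : ℕ) (A : ℝ) : ℝ := (pick d rs A).beta (p % 4)

lemma kapT_four (d : Row) (rs : List Row) (p : ℕ) (A : ℝ) : kapT d rs (p + 4) A = kapT d rs p A := by
  unfold kapT; rw [Nat.add_mod_right]
lemma tauT_four (d : Row) (rs : List Row) (p : ℕ) (A : ℝ) : tauT d rs (p + 4) A = tauT d rs p A := by
  unfold tauT; rw [Nat.add_mod_right]
lemma betaT_four (d : Row) (rs : List Row) (p : ℕ) (A : ℝ) :
    betaT d rs (p + 4) A = betaT d rs p A := by
  unfold betaT; rw [Nat.add_mod_right]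

lemma kapT_mono {d : Row} {rs : List Row} (h : Mono d rs) (p : ℕ) {A B : ℝ} (hAB : A ≤ B) :
    kapT d rs p A ≤ kapT d rs p B := (pick_mono h hAB (p % 4) (Nat.mod_lt _ (by norm_num))).1
lemma tauT_anti {d : Row} {rs : List Row} (h : Mono d rs) (p : ℕ) {A B : ℝ} (hAB : A ≤ B) :
    tauT d rs p B ≤ tauT d rs p A := (pick_mono h hAB (p % 4) (Nat.mod_lt _ (by norm_num))).2.1
lemma betaT_mono {d : Row} {rs : List Row} (h : Mono d rs) (p : ℕ) {A B : ℝ} (hAB : A ≤ B) :
    betaT d rs p A ≤ betaT d rs p B := (pick_mono h hAB (p % 4) (Nat.mod_lt _ (by norm_num))).2.2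

end Pool.Agent.W_4481e3_q46
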